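import Pool.Agent.helper76.LP.Defs2
import Pool.Agent.helper58.QR.GA
import Pool.Agent.helper27.QR.RP
import Pool.Agent.helper92.QR.QD
import Pool.Agent.helper92.QR.SD

/-!
Project QR, module SP: the step.
-/

namespace Pool.Agent.helper76.LP

open Finset

open Pool.Agent.helper34.DH

/-- the positive part of a function -/
def SP_pos {α : Type*} (ν : α → ℤ) (y : α) : ℤ := max (ν y) 0

theorem SP_pos_sub {α : Type*} [Neg α] (ν : α → ℤ) (h : ∀ y, ν (-y) = - ν y) (y : α) :
    SP_pos ν y - SP_pos ν (-y) = ν y := by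
  unfold SP_pos
  rw [h]
  omega

theorem SP_um_neg {d e : ℕ} (h : e ∣ d) (z : (ZMod d)ˣ) :
    ZMod.unitsMap h (-z) = - ZMod.unitsMap h z := by
  ext
  simp [ZMod.unitsMap]

theorem SP_Rop_sub (p e : ℕ) (ν : (ZMod e)ˣ → ℤ) (h : ∀ y, ν (-y) = - ν y) (y : (ZMod e)ˣ) :
    Rop p e (SP_pos ν) y - Rop p e (SP_pos ν) (-y) = Rop p e ν y := by
  unfold Rop
  split_ifs with hc
  · have h1 := SP_pos_sub ν h y
    have h2 := SP_pos_sub ν h (ZMod.unitOfCoprime p hc * y)
    rw [mul_neg]
    linarith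
  · have h1 := SP_pos_sub ν h y
    linarith

theorem SP_Rop_le (p e : ℕ) [NeZero e] (ν : (ZMod e)ˣ → ℤ) :
    ∑ y, |Rop p e ν y| ≤ 2 * ∑ y, |ν y| := by
  unfold Rop
  split_ifs with hc
  · have h1 : ∑ y : (ZMod e)ˣ, |ν (ZMod.unitOfCoprime p hc * y)| = ∑ y, |ν y| :=
      Fintype.sum_equiv (Equiv.mulLeft (ZMod.unitOfCoprime p hc)) _ _ (fun _ => rfl)
    have h2 : ∑ y : (ZMod e)ˣ, |ν y - ν (ZMod.unitOfCoprime p hc * y)| ≤
        ∑ y : (ZMod e)ˣ, (|ν y| + |ν (ZMod.unitOfCoprime p hc * y)|) :=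
      Finset.sum_le_sum fun y _ => abs_sub _ _
    rw [Finset.sum_add_distrib, h1] at h2
    linarith
  · simp only [sub_zero]
    have : 0 ≤ ∑ y : (ZMod e)ˣ, |ν y| := Finset.sum_nonneg fun _ _ => abs_nonneg _
    linarith

theorem SP_Rop_eq (p e : ℕ) [NeZero e] (hp : p.Prime) (hpe : p ∣ e) (ν : (ZMod e)ˣ → ℤ) :
    ∑ y, |Rop p e ν y| = ∑ y, |ν y| := by
  apply Finset.sum_congr rfl
  intro y _
  unfold Rop
  rw [dif_neg, sub_zero]
  intro hc
  exact (hp.coprime_iff_not_dvd.mp hc) hpe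

/-- the modification in the direction `p` -/
theorem SP_one (m : ℕ) [NeZero m] (D e p : ℕ) [NeZero D] [NeZero e] (hD : D ∣ m)
    (he : e * p = D) (hp : p.Prime) (N : (ZMod D)ˣ → ℤ)
    (hN : ∀ u ∈ Gam D p, ∀ x, N (u * x) = N x) (hodd : ∀ x, N (-x) = - N x) :
    ∃ g q : ZMod m → ℤ, (∀ z : (ZMod D)ˣ, anti g (emb D m (z : ZMod D)) = N z) ∧
      (∀ x, addOrderOf x ≠ D → anti g x = - q x) ∧ (∀ x, q x ≠ 0 → addOrderOf x = e) ∧
      (((∑ x, |q x| : ℤ) : ℚ) ≤ ((if p ^ 2 ∣ D then 1 else 2 : ℤ) : ℚ) *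
        ((∑ z, |N z| : ℤ) : ℚ) / (Nat.card (Gam D p) : ℚ)) ∧
      TateF (anti g) ∧ ∃ j : ℤ, cls m g = j • hh := by
  obtain ⟨ν, h1, h2, h3⟩ := desc_Gam D p e he hp N hN hodd
  have hem : e ∣ m := (Dvd.intro p he).trans hD
  have hpm : p ∣ m := (Dvd.intro_left e he).trans hD
  have hDe : D ≠ e := by
    intro h
    rw [← h] at he
    have hD0 : 0 < D := Nat.pos_of_ne_zero (NeZero.ne D)
    have := hp.two_le
    nlinarith
  -- the antisymmetrisation
  have hanti : ∀ x : ZMod m, anti (fun x => ext D m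
      (fun z => SP_pos ν (ZMod.unitsMap (Dvd.intro p he) z)) x -
        ext e m (Rop p e (SP_pos ν)) x) x = ext D m N x - ext e m (Rop p e ν) x := by
    intro x
    have e1 : anti (fun x => ext D m
      (fun z => SP_pos ν (ZMod.unitsMap (Dvd.intro p he) z)) x -
        ext e m (Rop p e (SP_pos ν)) x) x =
        anti (ext D m (fun z => SP_pos ν (ZMod.unitsMap (Dvd.intro p he) z))) x -
          anti (ext e m (Rop p e (SP_pos ν))) x := by
      unfold anti; ring
    rw [e1, anti_ext hD, anti_ext hem]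
    congr 2
    · funext z
      rw [SP_um_neg, SP_pos_sub ν h2, ← h1]
    · funext y
      exact SP_Rop_sub p e ν h2 y
  have hν : ∀ x : ZMod m, ext D m N x - ext e m (Rop p e ν) x =
      ext D m (fun z => ν (ZMod.unitsMap (Dvd.intro p he) z)) x - ext e m (Rop p e ν) x := by
    intro x
    congr 2
    funext z
    exact h1 z
  refine ⟨fun x => ext D m (fun z => SP_pos ν (ZMod.unitsMap (Dvd.intro p he) z)) x -
    ext e m (Rop p e (SP_pos ν)) x, ext e m (Rop p e ν), ?_, ?_, ?_, ?_, ?_, ?_⟩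
  · intro z
    rw [hanti, ext_emb hD, ext_of_order_ne hem _ _ (by rw [addOrderOf_emb hD]; exact hDe),
      sub_zero]
  · intro x hx
    rw [hanti, ext_of_order_ne hD _ _ hx, zero_sub]
  · intro x hx
    by_contra h
    exact hx (ext_of_order_ne hem _ _ h)
  · rw [sum_ext_abs hem]
    have hc : (0 : ℚ) < (Nat.card (Gam D p) : ℚ) := by
      exact_mod_cast Nat.card_pos
    rw [le_div_iff₀ hc]
    have h3' : ((∑ y, |ν y| : ℤ) : ℚ) * (Nat.card (Gam D p) : ℚ) = ((∑ z, |N z| : ℤ) : ℚ) := by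
      exact_mod_cast h3
    rw [← h3', ← mul_assoc]
    apply mul_le_mul_of_nonneg_right _ hc.le
    split_ifs with hpp
    · have hpe : p ∣ e := by
        have h4 : p * p ∣ e * p := by rw [he, ← pow_two]; exact hpp
        exact Nat.dvd_of_mul_dvd_mul_right hp.pos h4
      rw [SP_Rop_eq p e hp hpe]
      simp
    · have := SP_Rop_le p e ν
      exact_mod_cast this
  · intro t
    have e1 : ∀ x : ZMod m, anti (fun x => ext D m
      (fun z => SP_pos ν (ZMod.unitsMap (Dvd.intro p he) z)) x -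
        ext e m (Rop p e (SP_pos ν)) x) x * saw m ((t : ZMod m) * x) =
        ext D m (fun z => ν (ZMod.unitsMap (Dvd.intro p he) z)) x • saw m ((t : ZMod m) * x) -
          ext e m (Rop p e ν) x • saw m ((t : ZMod m) * x) := by
      intro x
      rw [hanti, hν, smul_eq_mul, smul_eq_mul]
      ring
    rw [Finset.sum_congr rfl fun x _ => e1 x, Finset.sum_sub_distrib,
      sum_ext_smul _ (fun x => saw m ((t : ZMod m) * x)),
      sum_ext_smul _ (fun x => saw m ((t : ZMod m) * x)),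
      dist_units m (fun x => saw m ((t : ZMod m) * x)) p hp 0 (fun x => by
        rw [add_zero]
        exact saw_dist m p hp hpm t x) D e hD he ν]
    simp
  · refine ⟨if p = 2 then ∑ y, SP_pos ν y else 0, ?_⟩
    unfold cls
    have e1 : ∀ x : ZMod m, (ext D m (fun z => SP_pos ν (ZMod.unitsMap (Dvd.intro p he) z)) x -
        ext e m (Rop p e (SP_pos ν)) x) • cl m x =
        ext D m (fun z => SP_pos ν (ZMod.unitsMap (Dvd.intro p he) z)) x • cl m x -
          ext e m (Rop p e (SP_pos ν)) x • cl m x := fun x => sub_smul _ _ _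
    rw [Finset.sum_congr rfl fun x _ => e1 x, Finset.sum_sub_distrib, sum_ext_smul, sum_ext_smul,
      dist_units m (cl m) p hp (if p = 2 then hh else 0) (fun x => cl_dist m p hp hpm x) D e hD he
        (SP_pos ν)]
    split_ifs
    · abel
    · simp

theorem SP_sum_anti {m : ℕ} (s : Finset ℕ) (c : ZMod m → ℤ) (G : ℕ → ZMod m → ℤ) (x : ZMod m) :
    anti (fun x => c x - ∑ p ∈ s, G p x) x = anti c x - ∑ p ∈ s, anti (G p) x := by
  unfold anti
  rw [Finset.sum_sub_distrib]
  ring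

/-- the weighted norms do not increase -/
theorem SP_norm (m : ℕ) [NeZero m] (D : ℕ) [NeZero D] (hD : D ∣ m) (a a' : ZMod m → ℤ)
    (s : Finset ℕ) (Q : ℕ → ZMod m → ℤ) (A : ℕ → ℚ) (w : ℕ → ℤ) (hw : ∀ n, 0 ≤ w n)
    (h1 : ∀ x, addOrderOf x = D → a' x = 0)
    (h2 : ∀ x, addOrderOf x ≠ D → a' x = a x + ∑ p ∈ s, Q p x)
    (h3 : ∀ p ∈ s, ∀ x, Q p x ≠ 0 → addOrderOf x = D / p)
    (h4 : ∀ p ∈ s, ((∑ x, |Q p x| : ℤ) : ℚ) ≤ A p)
    (h5 : ∑ p ∈ s, (w (D / p) : ℚ) * A p ≤
      (w D : ℚ) * ((∑ z : (ZMod D)ˣ, |a (emb D m (z : ZMod D))| : ℤ) : ℚ)) :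
    ∑ x, w (addOrderOf x) * |a' x| ≤ ∑ x, w (addOrderOf x) * |a x| := by
  classical
  -- the part of order `D`
  have e1 : ∑ x ∈ univ.filter (fun x : ZMod m => addOrderOf x = D), w (addOrderOf x) * |a x| =
      w D * ∑ z : (ZMod D)ˣ, |a (emb D m (z : ZMod D))| := by
    have e2 : univ.filter (fun x : ZMod m => addOrderOf x = D) =
        univ.image fun z : (ZMod D)ˣ => emb D m (z : ZMod D) := by
      ext x
      simp only [mem_filter, mem_univ, true_and, mem_image]
      constructor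
      · intro h
        exact exists_emb x h
      · rintro ⟨z, rfl⟩
        exact addOrderOf_emb hD z
    rw [e2, Finset.sum_image (fun z _ w _ h => Units.ext (emb_injective hD h)), Finset.mul_sum]
    exact Finset.sum_congr rfl fun z _ => by rw [addOrderOf_emb hD]
  have e3 : ∑ x, w (addOrderOf x) * |a' x| ≤
      ∑ x ∈ univ.filter (fun x : ZMod m => ¬ addOrderOf x = D), w (addOrderOf x) * |a x| +
        ∑ p ∈ s, ∑ x, w (addOrderOf x) * |Q p x| := by
    rw [← Finset.sum_filter_add_sum_filter_not univ (fun x : ZMod m => addOrderOf x = D)]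
    have e4 : ∑ x ∈ univ.filter (fun x : ZMod m => addOrderOf x = D),
        w (addOrderOf x) * |a' x| = 0 := by
      apply Finset.sum_eq_zero
      intro x hx
      rw [h1 x (by simpa using hx)]
      simp
    rw [e4, zero_add]
    calc ∑ x ∈ univ.filter (fun x : ZMod m => ¬ addOrderOf x = D), w (addOrderOf x) * |a' x|
        ≤ ∑ x ∈ univ.filter (fun x : ZMod m => ¬ addOrderOf x = D),
          (w (addOrderOf x) * |a x| + ∑ p ∈ s, w (addOrderOf x) * |Q p x|) := by
          apply Finset.sum_le_sum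
          intro x hx
          rw [h2 x (by simpa using hx), ← Finset.mul_sum, ← mul_add]
          apply mul_le_mul_of_nonneg_left _ (hw _)
          exact (abs_add_le _ _).trans (add_le_add_right (Finset.abs_sum_le_sum_abs _ _) _)
      _ = ∑ x ∈ univ.filter (fun x : ZMod m => ¬ addOrderOf x = D), w (addOrderOf x) * |a x| +
          ∑ x ∈ univ.filter (fun x : ZMod m => ¬ addOrderOf x = D),
            ∑ p ∈ s, w (addOrderOf x) * |Q p x| := Finset.sum_add_distrib
      _ ≤ _ := by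
          apply add_le_add_right
          rw [Finset.sum_comm]
          apply Finset.sum_le_sum
          intro p _
          apply Finset.sum_le_sum_of_subset_of_nonneg (Finset.filter_subset _ _)
          intro x _ _
          exact mul_nonneg (hw _) (abs_nonneg _)
  have e5 : ∑ p ∈ s, ∑ x, w (addOrderOf x) * |Q p x| ≤
      w D * ∑ z : (ZMod D)ˣ, |a (emb D m (z : ZMod D))| := by
    have e6 : (((∑ p ∈ s, ∑ x, w (addOrderOf x) * |Q p x| : ℤ)) : ℚ) ≤
        ((w D * ∑ z : (ZMod D)ˣ, |a (emb D m (z : ZMod D))| : ℤ) : ℚ) := by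
      rw [Int.cast_mul, Int.cast_sum]
      refine le_trans (Finset.sum_le_sum fun p hp => ?_) h5
      have e7 : ∑ x, w (addOrderOf x) * |Q p x| = w (D / p) * ∑ x, |Q p x| := by
        rw [Finset.mul_sum]
        apply Finset.sum_congr rfl
        intro x _
        by_cases hq : Q p x = 0
        · rw [hq]; simp
        · rw [h3 p hp x hq]
      rw [e7, Int.cast_mul]
      apply mul_le_mul_of_nonneg_left (h4 p hp)
      exact_mod_cast hw _
    exact_mod_cast e6
  have e8 := Finset.sum_filter_add_sum_filter_not univ (fun x : ZMod m => addOrderOf x = D)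
    (fun x => w (addOrderOf x) * |a x|)
  linarith

theorem step (m : ℕ) [NeZero m] (D : ℕ) [NeZero D] (hD : D ∣ m) (c : ZMod m → ℤ)
    (hmax : ∀ x, anti c x ≠ 0 → addOrderOf x ≤ D) (hT : TateF (anti c))
    (hdec : Dec D (fun z => anti c (emb D m (z : ZMod D)))) :
    ∃ c' : ZMod m → ℤ, TateF (anti c') ∧ (∀ x, anti c' x ≠ 0 → addOrderOf x < D) ∧
      normw (anti c') ≤ normw (anti c) ∧ norm4 (anti c') ≤ norm4 (anti c) ∧
      ∃ j : ℤ, cls m c' = cls m c + j • hh := by
  classical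
  obtain ⟨N, hN1, hN2, hN3, hN4⟩ := hdec
  have hD0 : 0 < D := Nat.pos_of_ne_zero (NeZero.ne D)
  have key : ∀ p : ℕ, ∃ g q : ZMod m → ℤ, p ∈ D.primeFactors →
      (∀ z : (ZMod D)ˣ, anti g (emb D m (z : ZMod D)) = N p z) ∧
      (∀ x, addOrderOf x ≠ D → anti g x = - q x) ∧ (∀ x, q x ≠ 0 → addOrderOf x = D / p) ∧
      (((∑ x, |q x| : ℤ) : ℚ) ≤ ((if p ^ 2 ∣ D then 1 else 2 : ℤ) : ℚ) *
        ((∑ z, |N p z| : ℤ) : ℚ) / (Nat.card (Gam D p) : ℚ)) ∧
      TateF (anti g) ∧ ∃ j : ℤ, cls m g = j • hh := by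
    intro p
    by_cases hp : p ∈ D.primeFactors
    · have hpp := Nat.prime_of_mem_primeFactors hp
      have hpd := Nat.dvd_of_mem_primeFactors hp
      have : NeZero (D / p) := ⟨(Nat.div_pos (Nat.le_of_dvd hD0 hpd) hpp.pos).ne'⟩
      obtain ⟨g, q, h⟩ := SP_one m D (D / p) p hD (Nat.div_mul_cancel hpd) hpp (N p) (hN1 p hp)
        (hN3 p hp)
      exact ⟨g, q, fun _ => h⟩
    · exact ⟨0, 0, fun h => absurd h hp⟩
  choose G Q hGQ using key
  have hanti : ∀ x, anti (fun x => c x - ∑ p ∈ D.primeFactors, G p x) x =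
      anti c x - ∑ p ∈ D.primeFactors, anti (G p) x := SP_sum_anti _ _ _
  have hfull : ∀ x, addOrderOf x = D →
      anti (fun x => c x - ∑ p ∈ D.primeFactors, G p x) x = 0 := by
    intro x hx
    obtain ⟨z, rfl⟩ := exists_emb x hx
    have h := hN2 z
    simp only at h
    rw [hanti, h, sub_eq_zero]
    exact Finset.sum_congr rfl fun p hp => ((hGQ p hp).1 z).symm
  have hrest : ∀ x, addOrderOf x ≠ D →
      anti (fun x => c x - ∑ p ∈ D.primeFactors, G p x) x =
        anti c x + ∑ p ∈ D.primeFactors, Q p x := by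
    intro x hx
    rw [hanti, Finset.sum_congr rfl fun p hp => (hGQ p hp).2.1 x hx, Finset.sum_neg_distrib]
    ring
  refine ⟨fun x => c x - ∑ p ∈ D.primeFactors, G p x, ?_, ?_, ?_, ?_, ?_⟩
  · intro t
    simp_rw [hanti, sub_mul, Finset.sum_mul, Finset.sum_sub_distrib]
    rw [hT t, Finset.sum_comm, Finset.sum_congr rfl fun p hp => (hGQ p hp).2.2.2.2.1 t]
    simp
  · intro x hx
    have hne : addOrderOf x ≠ D := fun h => hx (hfull x h)
    rw [hrest x hne] at hx
    by_cases h1 : anti c x = 0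
    · rw [h1, zero_add] at hx
      obtain ⟨p, hp, hpx⟩ := Finset.exists_ne_zero_of_sum_ne_zero hx
      rw [(hGQ p hp).2.2.1 x hpx]
      exact Nat.div_lt_self hD0 (Nat.prime_of_mem_primeFactors hp).one_lt
    · exact lt_of_le_of_ne (hmax x h1) hne
  · unfold normw
    refine SP_norm m D hD (anti c) _ D.primeFactors Q (fun p =>
      ((if p ^ 2 ∣ D then 1 else 2 : ℤ) : ℚ) * ((∑ z, |N p z| : ℤ) : ℚ) /
        (Nat.card (Gam D p) : ℚ)) wo (fun n => by unfold wo; split_ifs <;> norm_num) hfull hrest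
      (fun p hp => (hGQ p hp).2.2.1) (fun p hp => (hGQ p hp).2.2.2.1) ?_
    refine le_trans (le_of_eq ?_) hN4
    apply Finset.sum_congr rfl
    intro p _
    unfold kap
    push_cast
    ring
  · have e1 : ∀ F : ZMod m → ℤ, norm4 F =
        ∑ x, (fun n : ℕ => if 4 ∣ n then (1 : ℤ) else 0) (addOrderOf x) * |F x| := by
      intro F
      unfold norm4
      apply Finset.sum_congr rfl
      intro x _
      simp only
      split_ifs <;> simp
    rw [e1, e1]
    refine SP_norm m D hD (anti c) _ D.primeFactors Q (fun p =>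
      ((if p ^ 2 ∣ D then 1 else 2 : ℤ) : ℚ) * ((∑ z, |N p z| : ℤ) : ℚ) /
        (Nat.card (Gam D p) : ℚ)) (fun n : ℕ => if 4 ∣ n then (1 : ℤ) else 0)
      (fun n => by split_ifs <;> norm_num) hfull hrest
      (fun p hp => (hGQ p hp).2.2.1) (fun p hp => (hGQ p hp).2.2.2.1) ?_
    have hA : ∀ p, 0 ≤ ((if p ^ 2 ∣ D then 1 else 2 : ℤ) : ℚ) * ((∑ z, |N p z| : ℤ) : ℚ) /
        (Nat.card (Gam D p) : ℚ) := by
      intro p
      have h0 : (0 : ℚ) ≤ ((∑ z, |N p z| : ℤ) : ℚ) := by
        exact_mod_cast Finset.sum_nonneg fun _ _ => abs_nonneg _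
      split_ifs <;> push_cast <;> positivity
    by_cases h4 : 4 ∣ D
    · simp only [if_pos h4]
      have hwD : wo D = 1 := by unfold wo; rw [if_neg]; omega
      rw [hwD] at hN4
      push_cast at hN4 ⊢
      refine le_trans (Finset.sum_le_sum fun p _ => ?_) hN4
      have hw1 : (1 : ℚ) ≤ ((wo (D / p) : ℤ) : ℚ) := by
        unfold wo; split_ifs <;> norm_num
      have hw2 : ((if 4 ∣ D / p then (1 : ℚ) else 0)) ≤ ((wo (D / p) : ℤ) : ℚ) := by
        split_ifs
        · exact hw1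
        · linarith
      have h5 := mul_le_mul_of_nonneg_right hw2 (hA p)
      push_cast at h5
      refine h5.trans (le_of_eq ?_)
      unfold kap
      push_cast
      ring
    · simp only [if_neg h4]
      rw [Int.cast_zero, zero_mul]
      apply le_of_eq
      apply Finset.sum_eq_zero
      intro p hp
      rw [if_neg, Int.cast_zero, zero_mul]
      intro h5
      exact h4 (h5.trans (Nat.div_dvd_of_dvd (Nat.dvd_of_mem_primeFactors hp)))
  · have h1 : ∀ p : ℕ, ∃ j : ℤ, p ∈ D.primeFactors → cls m (G p) = j • hh := by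
      intro p
      by_cases hp : p ∈ D.primeFactors
      · obtain ⟨j, hj⟩ := (hGQ p hp).2.2.2.2.2
        exact ⟨j, fun _ => hj⟩
      · exact ⟨0, fun h => absurd h hp⟩
    choose j hj using h1
    refine ⟨- ∑ p ∈ D.primeFactors, j p, ?_⟩
    have h2 : cls m (fun x => c x - ∑ p ∈ D.primeFactors, G p x) =
        cls m c - ∑ p ∈ D.primeFactors, cls m (G p) := by
      unfold cls
      simp_rw [sub_smul, Finset.sum_smul, Finset.sum_sub_distrib]
      rw [Finset.sum_comm]
    rw [h2, Finset.sum_congr rfl fun p hp => hj p hp, ← Finset.sum_smul, neg_smul, sub_eq_add_neg]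

end Pool.Agent.helper76.LP
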