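import Pool.Agent.helper52.QR.LNa

/-!
Project QR, module LN: nonvanishing of the generalised Bernoulli number.
-/

namespace Pool.Agent.helper52.QR

open Complex Set HurwitzZeta

open scoped Real

theorem log_A {x : ℝ} (h0 : 0 < x) (h1 : x < 1) :
    Complex.log (1 - cexp (2 * π * I * x)) =
      ((Real.log (2 * Real.sin (π * x)) : ℝ) : ℂ) + ((π * x - π / 2 : ℝ) : ℂ) * I := by
  have hs : 0 < Real.sin (π * x) := by
    apply Real.sin_pos_of_pos_of_lt_pi
    · positivity
    · nlinarith [Real.pi_pos]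
  have e1 : 1 - cexp (2 * π * I * x) =
      ((2 * Real.sin (π * x) : ℝ) : ℂ) * cexp (((π * x - π / 2 : ℝ) : ℂ) * I) := by
    have e2 : cexp (((π * x - π / 2 : ℝ) : ℂ) * I) = cexp (π * x * I) * (-I) := by
      rw [← Complex.exp_neg_pi_div_two_mul_I, ← Complex.exp_add]
      congr 1
      push_cast
      ring
    have e3 : cexp (2 * π * I * x) = cexp (π * x * I) * cexp (π * x * I) := by
      rw [← Complex.exp_add]
      congr 1
      ring
    have e4 : ((2 * Real.sin (π * x) : ℝ) : ℂ) =
        (cexp (-(π * x * I)) - cexp (π * x * I)) * I := by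
      push_cast
      rw [Complex.sin]
      rw [show (-(π * x : ℂ)) * I = -(π * x * I) by ring]
      ring
    have e5 : cexp (-(π * x * I)) * cexp (π * x * I) = 1 := by
      rw [← Complex.exp_add]; simp
    rw [e2, e3, e4]
    linear_combination (-1 : ℂ) * e5 + (cexp (-(π * x * I)) * cexp (π * x * I) -
      cexp (π * x * I) * cexp (π * x * I)) * (Complex.I_mul_I)
  rw [e1, Complex.log_ofReal_mul (by linarith) (Complex.exp_ne_zero _), Complex.log_exp]
  · simp only [mul_im, ofReal_re, I_im, mul_one, ofReal_im, I_re, mul_zero, add_zero]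
    nlinarith [Real.pi_pos]
  · simp only [mul_im, ofReal_re, I_im, mul_one, ofReal_im, I_re, mul_zero, add_zero]
    nlinarith [Real.pi_pos]

theorem hurwitz_zero {x : ℝ} (h0 : 0 < x) (h1 : x < 1) (hx : (x : UnitAddCircle) ≠ 0) :
    hurwitzZeta (x : UnitAddCircle) 0 = 1 / 2 - x := by
  have h := hurwitzZeta_one_sub (x : UnitAddCircle) (s := 1) (fun n hn => by
    have := congrArg Complex.re hn
    simp at this
    have h3 : (0 : ℝ) ≤ n := Nat.cast_nonneg n
    linarith) (Or.inl hx)
  have hneg : -(x : UnitAddCircle) = ((1 - x : ℝ) : UnitAddCircle) := by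
    have := AddCircle.coe_period (1 : ℝ)
    rw [AddCircle.coe_sub, this, zero_sub]
  have hx' : ((1 - x : ℝ) : UnitAddCircle) ≠ 0 := by
    rw [← hneg]
    exact neg_ne_zero.mpr hx
  rw [sub_self, hneg, expZeta_one h0 h1 hx, expZeta_one (by linarith) (by linarith) hx',
    log_A h0 h1, log_A (by linarith) (by linarith)] at h
  have hsin : Real.sin (π * (1 - x)) = Real.sin (π * x) := by
    rw [mul_sub, mul_one, Real.sin_pi_sub]
  rw [h, hsin, Complex.Gamma_one, Complex.cpow_neg_one]
  have e1 : cexp (-π * I * 1 / 2) = -I := by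
    rw [← Complex.exp_neg_pi_div_two_mul_I]
    congr 1
    ring
  have e2 : cexp (π * I * 1 / 2) = I := by
    rw [show (π * I * 1 / 2 : ℂ) = π / 2 * I by ring, Complex.exp_pi_div_two_mul_I]
  rw [e1, e2]
  have hpi : (π : ℂ) ≠ 0 := by exact_mod_cast Real.pi_ne_zero
  push_cast
  field_simp
  ring_nf
  simp only [I_sq]
  ring

/-- **LN** -/
theorem bernoulli_ne' (d : ℕ) [NeZero d] (χ : DirichletCharacter ℂ d) (hp : χ.IsPrimitive)
    (ho : χ.Odd) : ∑ a : ZMod d, χ a * (a.val : ℂ) ≠ 0 := by
  intro hzero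
  have hchi : χ ≠ 1 := by
    rintro rfl
    have h2 : ((1 : DirichletCharacter ℂ d) (-1)) = 1 := by
      have : ((-1 : (ZMod d)ˣ) : ZMod d) = -1 := by simp
      rw [← this, MulChar.one_apply_coe]
    rw [DirichletCharacter.Odd] at ho
    rw [h2] at ho
    norm_num at ho
  have hd : d ≠ 1 := by
    rintro rfl
    exact hchi (DirichletCharacter.level_one χ)
  -- the value at 0
  have hL0 : DirichletCharacter.LFunction χ 0 = 0 := by
    rw [DirichletCharacter.LFunction, ZMod.LFunction]
    have e1 : ∀ j : ZMod d, χ j * hurwitzZeta (ZMod.toAddCircle j) 0 =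
        (1 / 2) * χ j - (1 / (d : ℂ)) * (χ j * (j.val : ℂ)) := by
      intro j
      rcases eq_or_ne j 0 with rfl | hj
      · rw [χ.map_zero' hd]; simp
      · have h1 : ZMod.toAddCircle j ≠ 0 := by
          rw [Ne, ZMod.toAddCircle_eq_zero]
          exact hj
        rw [ZMod.toAddCircle_apply] at h1 ⊢
        have hdpos : (0 : ℝ) < d := by exact_mod_cast Nat.pos_of_ne_zero (NeZero.ne d)
        have hjpos : (0 : ℝ) < j.val := by
          have : j.val ≠ 0 := fun h => hj ((ZMod.val_eq_zero j).mp h)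
          exact_mod_cast Nat.pos_of_ne_zero this
        rw [hurwitz_zero (div_pos hjpos hdpos) (by
          rw [div_lt_one hdpos]
          exact_mod_cast ZMod.val_lt j) h1]
        push_cast
        ring
    rw [Finset.sum_congr rfl (fun j _ => e1 j), Finset.sum_sub_distrib, ← Finset.mul_sum,
      ← Finset.mul_sum, hzero, χ.sum_eq_zero_of_ne_one hchi]
    simp
  have hcomp : DirichletCharacter.completedLFunction χ 0 = 0 := by
    have h1 := DirichletCharacter.LFunction_eq_completed_div_gammaFactor χ 0 (Or.inr hd)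
    rw [hL0, ho.gammaFactor_def, zero_add, Gammaℝ_one, div_one] at h1
    exact h1.symm
  have hpi : χ⁻¹.IsPrimitive := by
    rw [DirichletCharacter.isPrimitive_def] at hp ⊢
    rw [DirichletCharacter.conductor_inv, hp]
  have h2 := hpi.completedLFunction_one_sub 0
  rw [inv_inv, hcomp, mul_zero, sub_zero] at h2
  have h3 := DirichletCharacter.LFunction_eq_completed_div_gammaFactor χ⁻¹ 1 (Or.inr hd)
  rw [h2, zero_div] at h3
  exact DirichletCharacter.LFunction_apply_one_ne_zero (χ := χ⁻¹) (by
    intro h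
    exact hchi (inv_eq_one.mp h)) h3

end Pool.Agent.helper52.QR

namespace Pool.Agent.helper76.LP

/-- **LN** -/
theorem bernoulli_ne (d : ℕ) [NeZero d] (χ : DirichletCharacter ℂ d) (hp : χ.IsPrimitive)
    (ho : χ.Odd) : ∑ a : ZMod d, χ a * (a.val : ℂ) ≠ 0 :=
  Pool.Agent.helper52.QR.bernoulli_ne' d χ hp ho

end Pool.Agent.helper76.LP
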