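import Mathlib

/-!
Project QR, module LN, first half: the value at 0 of the Hurwitz zeta function.
-/

namespace Pool.Agent.helper52.QR

open Complex Set Filter Topology MeasureTheory HurwitzZeta

open scoped Real

/-- `w / (1 - w)` with `w = exp (2 pi i x - t)` -/
noncomputable def FF (x t : ℝ) : ℂ :=
  cexp (2 * π * I * x - t) * (1 - cexp (2 * π * I * x - t))⁻¹

theorem norm_w (x t : ℝ) : ‖cexp (2 * π * I * x - t)‖ = Real.exp (-t) := by
  rw [Complex.norm_exp]
  congr 1
  simp

theorem one_sub_ne {x : ℝ} (h0 : 0 < x) (h1 : x < 1) {t : ℝ} (ht : 0 ≤ t) :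
    0 < (1 - cexp (2 * π * I * x - t)).re := by
  rcases ht.eq_or_lt with rfl | ht
  · have e : (2 * π * I * x - ((0 : ℝ) : ℂ)) = ((2 * π * x : ℝ) : ℂ) * I := by
      push_cast; ring
    rw [e, Complex.sub_re, Complex.exp_ofReal_mul_I_re, Complex.one_re]
    have h2 : Real.cos (2 * π * x) < 1 := by
      have h3 : Real.cos (2 * π * x) = 1 - 2 * Real.sin (π * x) ^ 2 := by
        rw [show 2 * π * x = 2 * (π * x) by ring, Real.cos_two_mul]
        have := Real.sin_sq_add_cos_sq (π * x)
        linarith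
      have h4 : 0 < Real.sin (π * x) := by
        apply Real.sin_pos_of_pos_of_lt_pi
        · positivity
        · nlinarith [Real.pi_pos]
      nlinarith
    linarith
  · have h2 := Complex.abs_re_le_norm (cexp (2 * π * I * x - t))
    rw [norm_w] at h2
    have h3 := (abs_le.mp h2).2
    have h4 : Real.exp (-t) < 1 := by
      rw [Real.exp_lt_one_iff]; linarith
    rw [Complex.sub_re, Complex.one_re]
    linarith

theorem hasDeriv {x : ℝ} (h0 : 0 < x) (h1 : x < 1) {t : ℝ} (ht : 0 ≤ t) :
    HasDerivAt (fun t : ℝ => Complex.log (1 - cexp (2 * π * I * x - t))) (FF x t) t := by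
  have h2 : HasDerivAt (fun t : ℝ => (2 * π * I * x - (t : ℂ))) (-1) t := by
    simpa using (Complex.ofRealCLM.hasDerivAt (x := t)).const_sub (2 * π * I * x)
  have h3 := (h2.cexp).const_sub 1
  have h4 := h3.clog_real (by
    rw [Complex.mem_slitPlane_iff]
    left
    exact one_sub_ne h0 h1 ht)
  convert h4 using 1
  rw [FF, div_eq_mul_inv]
  ring

theorem cont_FF {x : ℝ} (h0 : 0 < x) (h1 : x < 1) : ContinuousOn (FF x) (Ici 0) := by
  unfold FF
  have h2 : Continuous (fun t : ℝ => cexp (2 * π * I * x - t)) := by fun_prop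
  apply h2.continuousOn.mul
  apply ContinuousOn.inv₀ (by fun_prop)
  intro t ht h
  have := one_sub_ne h0 h1 ht
  rw [h] at this
  simp at this

theorem bound_FF (x : ℝ) {t : ℝ} (ht : 1 ≤ t) : ‖FF x t‖ ≤ 2 * Real.exp (-t) := by
  rw [FF, norm_mul, norm_w, norm_inv, mul_comm]
  apply mul_le_mul_of_nonneg_right _ (Real.exp_pos _).le
  have h1 : (1 : ℝ) / 2 ≤ ‖1 - cexp (2 * π * I * x - t)‖ := by
    have h2 := norm_sub_norm_le (1 : ℂ) (cexp (2 * π * I * x - t))
    rw [norm_w, norm_one] at h2
    have h3 : Real.exp (-t) ≤ Real.exp (-1) := Real.exp_le_exp.mpr (by linarith)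
    have h4 : Real.exp (-1) < 1 / 2 := by
      rw [Real.exp_neg, inv_lt_comm₀ (Real.exp_pos _) (by norm_num)]
      have := Real.exp_one_gt_d9
      norm_num
      linarith
    linarith
  rw [inv_le_comm₀ (by linarith) (by norm_num)]
  linarith

theorem bigO_top (x : ℝ) : (FF x) =O[atTop] (fun t : ℝ => Real.exp (-1 * t)) := by
  apply Asymptotics.IsBigO.of_bound 2
  filter_upwards [eventually_ge_atTop (1 : ℝ)] with t ht
  rw [Real.norm_eq_abs, abs_of_pos (Real.exp_pos _), neg_one_mul]
  exact bound_FF x ht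

theorem bigO_zero {x : ℝ} (h0 : 0 < x) (h1 : x < 1) :
    (FF x) =O[𝓝[>] 0] (fun t : ℝ => t ^ (-(0 : ℝ))) := by
  have h2 : Tendsto (FF x) (𝓝[>] 0) (𝓝 (FF x 0)) :=
    ((cont_FF h0 h1) 0 (by simp)).mono_left (nhdsWithin_mono _ Ioi_subset_Ici_self)
  simp only [neg_zero, Real.rpow_zero]
  exact h2.isBigO_one ℝ

theorem locInt {x : ℝ} (h0 : 0 < x) (h1 : x < 1) : LocallyIntegrableOn (FF x) (Ioi 0) :=
  ((cont_FF h0 h1).mono Ioi_subset_Ici_self).locallyIntegrableOn measurableSet_Ioi

theorem hasSum_FF {x : ℝ} {t : ℝ} (ht : 0 < t) :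
    HasSum (fun n : ℕ => (if n = 0 then 0 else cexp (2 * π * I * x * n)) *
      ((Real.exp (-(n : ℝ) * t) : ℝ) : ℂ)) (FF x t) := by
  have h1 : ‖cexp (2 * π * I * x - t)‖ < 1 := by
    rw [norm_w, Real.exp_lt_one_iff]; linarith
  have h2 := (hasSum_geometric_of_norm_lt_one h1).mul_left (cexp (2 * π * I * x - t))
  rw [← hasSum_nat_add_iff' 1]
  simp only [Finset.range_one, Finset.sum_singleton, if_true, zero_mul, sub_zero]
  refine h2.congr_fun fun n => ?_
  rw [if_neg (Nat.succ_ne_zero n), ← pow_succ', ← Complex.exp_nat_mul, Complex.ofReal_exp,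
    ← Complex.exp_add]
  congr 1
  push_cast
  ring

theorem mellin_FF {x : ℝ} {s : ℂ} (hs : 1 < s.re) :
    mellin (FF x) s = Complex.Gamma s * expZeta (x : UnitAddCircle) s := by
  have h := hasSum_mellin (a := fun n : ℕ => if n = 0 then 0 else cexp (2 * π * I * x * n))
    (p := fun n : ℕ => (n : ℝ)) (F := FF x) (s := s) (fun n => by
      rcases Nat.eq_zero_or_pos n with rfl | hn
      · left; simp
      · right; exact_mod_cast hn) (by linarith) (fun t ht => hasSum_FF ht) (by
      apply Summable.of_nonneg_of_le (f := fun n : ℕ => 1 / (n : ℝ) ^ s.re)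
      · intro n; positivity
      · intro n
        rcases Nat.eq_zero_or_pos n with rfl | hn
        · simp only [if_true, norm_zero, zero_div]; positivity
        · rw [if_neg hn.ne']
          apply le_of_eq
          congr 1
          rw [show (2 * π * I * x * n : ℂ) = ((2 * π * x * n : ℝ) : ℂ) * I by push_cast; ring,
            Complex.norm_exp_ofReal_mul_I]
      · exact Real.summable_one_div_nat_rpow.mpr hs)
  have h2 := (hasSum_expZeta_of_one_lt_re x hs).mul_left (Complex.Gamma s)
  apply h.unique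
  refine h2.congr_fun fun n => ?_
  rcases Nat.eq_zero_or_pos n with rfl | hn
  · have : s ≠ 0 := by
      rintro rfl
      simp at hs
      linarith
    simp [Complex.zero_cpow this]
  · rw [if_neg hn.ne', mul_div_assoc]
    simp

theorem expZeta_one {x : ℝ} (h0 : 0 < x) (h1 : x < 1) (hx : (x : UnitAddCircle) ≠ 0) :
    expZeta (x : UnitAddCircle) 1 = - Complex.log (1 - cexp (2 * π * I * x)) := by
  -- continuity of both sides at 1
  have hd : DifferentiableAt ℂ (mellin (FF x)) 1 :=
    mellin_differentiableAt_of_isBigO_rpow_exp zero_lt_one (locInt h0 h1) (bigO_top x)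
      (bigO_zero h0 h1) (by simp)
  have he : ContinuousAt (fun s : ℂ => Complex.Gamma s * expZeta (x : UnitAddCircle) s) 1 := by
    apply ContinuousAt.mul
    · exact (Complex.differentiableAt_Gamma 1 (fun m h => by
        have := congrArg Complex.re h
        simp at this
        have h3 : (0 : ℝ) ≤ m := Nat.cast_nonneg m
        linarith)).continuousAt
    · exact (differentiable_expZeta_of_ne_zero hx).continuous.continuousAt
  -- approach 1 from the right
  have hlim : Tendsto (fun n : ℕ => (1 : ℂ) + ((1 / ((n : ℝ) + 1) : ℝ) : ℂ)) atTop (𝓝 1) := by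
    have h2 : Tendsto (fun n : ℕ => (1 / ((n : ℝ) + 1) : ℝ)) atTop (𝓝 0) :=
      tendsto_one_div_add_atTop_nhds_zero_nat
    have h3 := ((Complex.continuous_ofReal.tendsto 0).comp h2).const_add 1
    simpa using h3
  have e1 := hd.continuousAt.tendsto.comp hlim
  have e2 := he.tendsto.comp hlim
  have e3 : (mellin (FF x) ∘ fun n : ℕ => (1 : ℂ) + ((1 / ((n : ℝ) + 1) : ℝ) : ℂ)) =
      ((fun s : ℂ => Complex.Gamma s * expZeta (x : UnitAddCircle) s) ∘
        fun n : ℕ => (1 : ℂ) + ((1 / ((n : ℝ) + 1) : ℝ) : ℂ)) := by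
    funext n
    simp only [Function.comp]
    apply mellin_FF
    rw [Complex.add_re, Complex.one_re, Complex.ofReal_re]
    have : (0 : ℝ) < 1 / ((n : ℝ) + 1) := by positivity
    linarith
  rw [e3] at e1
  have e4 := tendsto_nhds_unique e1 e2
  rw [Complex.Gamma_one, one_mul] at e4
  rw [← e4, mellin]
  have e5 : ∀ t ∈ Ioi (0 : ℝ), ((t : ℂ) ^ ((1 : ℂ) - 1)) • FF x t = FF x t := by
    intro t _
    simp
  rw [setIntegral_congr_fun measurableSet_Ioi e5]
  have hint : IntegrableOn (FF x) (Ioi 0) := by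
    have h3 := mellinConvergent_of_isBigO_rpow_exp zero_lt_one (locInt h0 h1) (bigO_top x)
      (bigO_zero h0 h1) (s := 1) (by simp)
    rw [MellinConvergent] at h3
    exact h3.congr_fun e5 measurableSet_Ioi
  have h4 := integral_Ioi_of_hasDerivAt_of_tendsto
    (f := fun t : ℝ => Complex.log (1 - cexp (2 * π * I * x - t))) (f' := FF x) (a := 0) (m := 0)
    (hasDeriv h0 h1 le_rfl).continuousAt.continuousWithinAt
    (fun t ht => hasDeriv h0 h1 (le_of_lt ht)) hint ?_
  · rw [h4]
    simp
  · have h5 : Tendsto (fun t : ℝ => cexp (2 * π * I * x - t)) atTop (𝓝 0) := by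
      rw [tendsto_zero_iff_norm_tendsto_zero]
      simp_rw [norm_w]
      exact Real.tendsto_exp_neg_atTop_nhds_zero
    have h6 : Tendsto (fun t : ℝ => 1 - cexp (2 * π * I * x - t)) atTop (𝓝 1) := by
      simpa using h5.const_sub 1
    have h7 := (continuousAt_clog (x := 1) (by simp)).tendsto.comp h6
    rw [Complex.log_one] at h7
    exact h7

end Pool.Agent.helper52.QR
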